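import Pool.Agent.Helper45.LGB.St

/-!
# Project LGB, module NRT: walks in a graph
-/

set_option autoImplicit false

namespace Pool.Agent.Helper36.LGB

open Pool.Agent.Helper45.LGB

private lemma rfl_nr {ι : Type} (E : ι → ι → Prop) (n : ℕ) (a : ι) : nr E n a a := by
  induction n with
  | zero => exact rfl
  | succ n ih => exact ⟨a, ih, Or.inl rfl⟩

private lemma mono_nr {ι : Type} (E : ι → ι → Prop) (m n : ℕ) (a b : ι) (h : m ≤ n)
    (hm : nr E m a b) : nr E n a b := by
  induction n, h using Nat.le_induction with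
  | base => exact hm
  | succ n _ ih => exact ⟨b, ih, Or.inl rfl⟩

private lemma trans_nr {ι : Type} (E : ι → ι → Prop) (m n : ℕ) (a b c : ι)
    (h1 : nr E m a b) (h2 : nr E n b c) : nr E (m + n) a c := by
  induction n generalizing c with
  | zero =>
    have h3 : b = c := h2
    rw [← h3]
    exact h1
  | succ n ih =>
    obtain ⟨d, hd, hdc⟩ := h2
    exact ⟨d, ih d hd, hdc⟩

private lemma one_nr {ι : Type} (E : ι → ι → Prop) (a b : ι) (h : E a b) : nr E 1 a b :=
  ⟨a, rfl, Or.inr h⟩

private lemma symm_nr {ι : Type} (E : ι → ι → Prop) (hE : Sy E) (n : ℕ) (a b : ι)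
    (h : nr E n a b) : nr E n b a := by
  induction n generalizing b with
  | zero => exact Eq.symm h
  | succ n ih =>
    obtain ⟨c, hc, hcb⟩ := h
    have h1 := ih c hc
    rcases hcb with h2 | h2
    · rw [← h2]
      exact mono_nr E n (n + 1) c a (Nat.le_succ n) h1
    · have h3 := trans_nr E 1 n b c a (one_nr E b c (hE c b h2)) h1
      rwa [Nat.add_comm] at h3

theorem hNRT : StNRT := fun _ E =>
  ⟨rfl_nr E, fun m n a b h hm => mono_nr E m n a b h hm,
    fun m n a b c h1 h2 => trans_nr E m n a b c h1 h2,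
    fun hE n a b h => symm_nr E hE n a b h, one_nr E⟩

end Pool.Agent.Helper36.LGB
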